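import Pool.Agent.Lib.MP_4a593f_gt.BH.Stm
import Pool.Agent.Lib.MP_4a593f_gt.BH.Defs

/-!
Fin/Br: every definition of the statement layer `BH/Stm.lean` is the one of `BH/Defs.lean`.
-/

open scoped Manifold ContDiff Bundle Topology

universe u

namespace BHS

section

variable {n : ℕ} {M : Type u} [TopologicalSpace M] [i1 : ChartedSpace (V n) M]

theorem br_form (p : ℕ) : Form n M p = @BH.Form n M _ i1 p := rfl

theorem br_loc {p : ℕ} (e : OpenPartialHomeomorph M (V n)) (α : Form n M p) :
    loc e α = @BH.loc n M _ i1 p e α := rfl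

theorem br_smooth {p : ℕ} (α : Form n M p) : Smooth α = @BH.Smooth n M _ i1 p α := rfl

theorem br_dM {p : ℕ} (α : Form n M p) : dM α = @BH.dM n M _ i1 p α := rfl

theorem br_closed (p : ℕ) : closedForms n M p = @BH.closedForms n M _ i1 p := rfl

theorem br_exact (p : ℕ) : exactForms n M p = @BH.exactForms n M _ i1 p := rfl

theorem br_betti (p : ℕ) : betti n M p = @BH.betti n M _ i1 p := rfl

theorem br_euler : euler n M = @BH.euler n M _ i1 := rfl

theorem br_riem : @riem n = @BH.riem n := rfl

variable [i2 : IsManifold (I n) ∞ M]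

theorem br_metric : Metric n M = @BH.Metric n M _ i1 i2 := rfl

theorem br_gloc (e : OpenPartialHomeomorph M (V n)) (g : Metric n M) :
    gloc e g = @BH.gloc n M _ i1 i2 e g := rfl

theorem br_secpos (g : Metric n M) : SecPos g = @BH.SecPos n M _ i1 i2 g := rfl

theorem br_between (g : Metric n M) (a b : M → ℝ) :
    SecBetween g a b = @BH.SecBetween n M _ i1 i2 g a b := rfl

theorem br_kpos (g : Metric n M) (k : ℕ) : CurvKPos g k = @BH.CurvKPos n M _ i1 i2 g k := rfl

end

end BHS
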