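import Pool.Agent.Lib.MP_4a593f_gt.BH.LWz
import Pool.Agent.Lib.MP_4a593f_gt.BH.Met

/-!
Fin/WzP: positivity of the curvature term (definition).
-/

open scoped Manifold ContDiff Bundle Topology Matrix

noncomputable section

universe u

namespace BH

variable {n : ℕ} {M : Type u} [TopologicalSpace M] [ChartedSpace (E n) M]
  [IsManifold 𝓘(ℝ, E n) ∞ M]

/-- the curvature term on `(p+1)`-forms is positive at every point -/
def WzPos (g : Metric n M) (p : ℕ) : Prop :=
  ∀ e ∈ atlas (E n) M, ∀ y ∈ e.target, ∀ a : Alt n (p + 1), a ≠ 0 →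
    0 < ipG (gmat (gloc e g) y) (wz (gloc e g) y a) a

end BH
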