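import Pool.Agent.Lib.MP_4a593f_gt.BH.Gl.Est
import Pool.Agent.Lib.MP_4a593f_gt.BH.PSum
import Pool.Agent.Lib.MP_4a593f_gt.BH.Sm.Top
import Pool.Agent.Lib.MP_4a593f_gt.BH.H0
import Pool.Agent.Lib.MP_4a593f_gt.BH.Fin.WzP

/-!
Row Fin/Exact: positivity of the curvature term on `(p+1)`-forms implies that every closed
`(p+1)`-form is exact. Assembly of the parts (G), (P), (S).
-/

open scoped Manifold ContDiff Bundle Topology Matrix
open MeasureTheory Filter

noncomputable section

universe u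

namespace BH

variable {n p : ℕ} {M : Type u} [TopologicalSpace M] [ChartedSpace (E n) M]
  [IsManifold 𝓘(ℝ, E n) ∞ M] [CompactSpace M] [T2Space M]

theorem exact_of_wz (g : Metric n M) (h : WzPos g p) {α : Form n M (p + 1)} (hα : Smooth α)
    (hd : dM α = 0) : ∃ β : Form n M p, Smooth β ∧ dM β = α := by
  obtain ⟨C⟩ := exists_cover n M
  obtain ⟨c, hc, hb⟩ := estimate (Sys.mk g C) p h
  have hw : dO (Sys.mk g C) (p + 1) (Om.of (Sys.mk g C) α hα) = 0 := Om.ext hd
  obtain ⟨a, h1, h2⟩ := strong_prim (Sys.mk g C) p hc hb _ hw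
  obtain ⟨η, hη⟩ := exists_smooth_primitive hw (del _ p) (inner_dO _ p) (v := a)
    ⟨h1, tendsto_iff_norm_sub_tendsto_zero.1 h2⟩
  exact ⟨η.f, η.smooth, congrArg Om.f hη⟩

/-- every closed `(p+1)`-form is exact -/
theorem closed_le_of_wz (g : Metric n M) (h : WzPos g p) :
    closedForms n M (p + 1) ≤ exactForms n M (p + 1) := fun _ hα => exact_of_wz g h hα.1 hα.2

theorem betti_of_wz (g : Metric n M) (h : WzPos g p) : betti n M (p + 1) = 0 :=
  betti_eq_zero fun _ hα hd => exact_of_wz g h hα hd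

end BH
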