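import Pool.Agent.Lib.MP_4a593f_gt.BH.AlgD
import Pool.Agent.Lib.MP_4a593f_gt.BH.Met

/-!
Row Fin/HypA: the curvature hypotheses in orthonormal frames.
-/

open scoped Manifold ContDiff Bundle Topology Matrix

noncomputable section

universe u

namespace BH

variable {n p : ℕ} {M : Type u} [TopologicalSpace M] [ChartedSpace (E n) M]
  [IsManifold 𝓘(ℝ, E n) ∞ M]

/-- the curvature components in every orthonormal frame at every point `x` satisfy `P x` -/
def AtAll (g : Metric n M) (P : M → (Fin n → Fin n → Fin n → Fin n → ℝ) → Prop) : Prop :=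
  ∀ e ∈ atlas (E n) M, ∀ y ∈ e.target, ∀ u : Matrix (Fin n) (Fin n) ℝ,
    uᵀ * gmat (gloc e g) y * u = 1 → P (e.symm y) (rfr (gloc e g) y u)

theorem AtAll.mono {g : Metric n M} {P Q : M → (Fin n → Fin n → Fin n → Fin n → ℝ) → Prop}
    (h : AtAll g P) (H : ∀ x R, P x R → Q x R) : AtAll g Q :=
  fun e he y hy u hu => H _ _ (h e he y hy u hu)

theorem AtAll.and {g : Metric n M} {P Q : M → (Fin n → Fin n → Fin n → Fin n → ℝ) → Prop}
    (h : AtAll g P) (h' : AtAll g Q) : AtAll g fun x R => P x R ∧ Q x R :=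
  fun e he y hy u hu => ⟨h e he y hy u hu, h' e he y hy u hu⟩

theorem between_all {g : Metric n M} {a b : M → ℝ} (h : SecBetween g a b) :
    AtAll g fun x R => ∀ v w : Fin n → ℝ,
      a x * ((∑ i, v i * v i) * (∑ i, w i * w i) - (∑ i, v i * w i) ^ 2) ≤
          ∑ i, ∑ j, ∑ k, ∑ l, R i j k l * v i * w j * v k * w l ∧
        ∑ i, ∑ j, ∑ k, ∑ l, R i j k l * v i * w j * v k * w l ≤
          b x * ((∑ i, v i * v i) * (∑ i, w i * w i) - (∑ i, v i * w i) ^ 2) :=
  fun e he y hy _ hu => sec_frame hu (h e he y hy)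

theorem sec_all {g : Metric n M} (h : SecPos g) :
    AtAll g fun _ R => ∀ v w : Fin n → ℝ,
      0 < (∑ i, v i * v i) * (∑ i, w i * w i) - (∑ i, v i * w i) ^ 2 →
      0 < ∑ i, ∑ j, ∑ k, ∑ l, R i j k l * v i * w j * v k * w l := by
  intro e he y hy u hu v w hvw
  have h1 := h e he y hy (fun i => ∑ a, u i a * v a) (fun i => ∑ a, u i a * w a)
  have e1 : ∀ v w : Fin n → ℝ,
      ∑ i, ∑ j, gloc e g i j y * (∑ a, u i a * v a) * (∑ b, u j b * w b) = ∑ i, v i * w i :=
    fun v w => frame2_sum (g := gmat (gloc e g) y) hu v w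
  simp only [e1, sec_sum] at h1
  exact h1 hvw

theorem kpos_all {g : Metric n M} {k : ℕ} (h : CurvKPos g k) :
    AtAll g fun _ R => HopfBig.KPositive R k :=
  fun e he y hy _ hu => kpos_frame hu (h e he y hy)

end BH
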