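import Pool.Agent.Lib.MP_4a593f_gt.BH.AlgE
import Pool.Agent.Lib.MP_4a593f_gt.BH.AlgS
import Pool.Agent.Lib.MP_4a593f_gt.BH.Fin.HypA
import Pool.Agent.Lib.MP_4a593f_gt.BH.Fin.WzP

/-!
Row Fin/HypB: from the algebra to the curvature term.
-/

open scoped Manifold ContDiff Bundle Topology Matrix

noncomputable section

universe u

namespace BH

variable {n p : ℕ} {M : Type u} [TopologicalSpace M] [ChartedSpace (E n) M]
  [IsManifold 𝓘(ℝ, E n) ∞ M]

theorem curv_all (g : Metric n M) : AtAll g fun _ R => HopfBig.IsCurvature R :=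
  fun e he _ hy u _ => rfr_curv e.open_target (isMet_gloc g he) hy u

/-- the bridge to the algebra: positivity of the curvature term of the Weitzenböck formula -/
theorem wz_all {g : Metric n M}
    (h : AtAll g fun _ R => ∀ φ : (Fin (p + 1) → Fin n) → ℝ, HopfBig.IsForm φ → φ ≠ 0 →
      0 < HopfBig.bochner R φ) : WzPos g p :=
  fun e he y hy _ ha => wz_pos ((isMet_gloc g he).pos y hy)
    (fun u hu => curv_all g e he y hy u hu) (fun u hu => h e he y hy u hu) ha

end BH
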