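import Pool.Agent.Lib.MP_4a593f_gt.BH.AlgE
import Pool.Agent.Lib.MP_4a593f_gt.BH.AlgO
import Pool.Agent.Lib.MP_4a593f_gt.BH.Fin.HypB

/-!
Row Fin/Pnt: the pointwise theorems of `BH/Pt.lean` and `BH/Pt2.lean` give positivity of the
curvature term of the Weitzenböck formula on the manifold.

* `wz_S1` : `n` even, positive sectional curvature or `k < n`, `k`-positive, `5 k + 18 ≤ 6 n`;
* `wz_S2` : `(n-2)`-positive;
* `wz_S3` : `n = 6`, `4 b < 31 a` (`wz_S3o`: lower bound and orthogonal planes);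
* `wz_S4` : `n = 8`, `391 b < 1891 a`;
* `wz_even` : `n` even, `8 b < 33 a`;
* `wz_quad` : `4 k ≤ p (n - p)`.
-/

open scoped Manifold ContDiff Bundle Topology Matrix

noncomputable section

universe u

namespace BH

variable {n : ℕ} {M : Type u} [TopologicalSpace M] [ChartedSpace (E n) M]
  [IsManifold 𝓘(ℝ, E n) ∞ M]

/-- the shape of all applications -/
theorem wz_of {g : Metric n M} {P : M → (Fin n → Fin n → Fin n → Fin n → ℝ) → Prop}
    (hP : AtAll g P) {q : ℕ}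
    (H : ∀ x R, HopfBig.IsCurvature R → P x R → ∀ φ : (Fin (q + 1) → Fin n) → ℝ,
      HopfBig.IsForm φ → φ ≠ 0 → 0 < HopfBig.bochner R φ) : WzPos g q :=
  wz_all (((curv_all g).and hP).mono fun x R h => H x R h.1 h.2)

theorem sec_all' {g : Metric n M} (h : SecPos g) : AtAll g fun _ R => HopfPt.SecPosA R :=
  sec_all h

theorem between_all' {g : Metric n M} {a b : M → ℝ} (h : SecBetween g a b) :
    AtAll g fun x R => HopfPt.SecInA R (a x) (b x) :=
  between_all h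

/-- `n` even, positive sectional curvature or `k < n`, `k`-positive with `5 k + 18 ≤ 6 n`: all
odd degrees. -/
theorem wz_S1 {g : Metric n M} {k : ℕ} (hn : Even n) (hk : 5 * k + 18 ≤ 6 * n)
    (hs : SecPos g ∨ k < n) (hc : CurvKPos g k) {q : ℕ} (hq : q + 1 ≤ n) (ho : Odd (q + 1)) :
    WzPos g q := by
  have hk' : 5 * (k : ℝ) ≤ 6 * ((n : ℝ) - 3) := by
    have h1 : ((5 * k + 18 : ℕ) : ℝ) ≤ ((6 * n : ℕ) : ℝ) := by exact_mod_cast hk
    push_cast at h1
    linarith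
  rcases hs with hs | hs
  · refine wz_of ((sec_all' hs).and (kpos_all hc)) fun x R hR h φ hφ h0 => ?_
    exact HopfPt.pt_odd hn hR (Or.inl (h.1.ricPos (by omega) hR)) hk' h.2 ho hq hφ h0
  · refine wz_of (kpos_all hc) fun x R hR h φ hφ h0 => ?_
    exact HopfPt.pt_odd hn hR (Or.inr hs) hk' h ho hq hφ h0

/-- `(n-2)`-positive: all degrees strictly between `0` and `n`. -/
theorem wz_S2 {g : Metric n M} (hn : 3 ≤ n) (hc : CurvKPos g (n - 2)) {q : ℕ} (hq : q + 1 < n) :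
    WzPos g q :=
  wz_of (kpos_all hc) fun _ _ hR h _ hφ h0 => HopfPt.pt_nm2 hn hR h (Nat.succ_pos q) hq hφ h0

/-- `n = 6`, pointwise pinching `4 b < 31 a`: all odd degrees. -/
theorem wz_S3 {M : Type u} [TopologicalSpace M] [ChartedSpace (E 6) M]
    [IsManifold 𝓘(ℝ, E 6) ∞ M] {g : Metric 6 M} {a b : M → ℝ} (h : SecBetween g a b)
    (hab : ∀ x, 4 * b x < 31 * a x) {q : ℕ} (hq : q + 1 ≤ 6) (ho : Odd (q + 1)) : WzPos g q :=
  wz_of (between_all' h) fun x _ hR h _ hφ h0 => HopfPt.pt_six' hR h (hab x) ho hq hφ h0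

/-- `n = 8`, pointwise pinching `391 b < 1891 a`: all odd degrees. -/
theorem wz_S4 {M : Type u} [TopologicalSpace M] [ChartedSpace (E 8) M]
    [IsManifold 𝓘(ℝ, E 8) ∞ M] {g : Metric 8 M} {a b : M → ℝ} (h : SecBetween g a b)
    (hab : ∀ x, 391 * b x < 1891 * a x) {q : ℕ} (hq : q + 1 ≤ 8) (ho : Odd (q + 1)) : WzPos g q :=
  wz_of (between_all' h) fun x _ hR h _ hφ h0 => HopfPt.pt_eight hR h (hab x) ho hq hφ h0

/-- `n` even, pointwise pinching `8 b < 33 a`: degrees `1, 3, n - 3, n - 1`. -/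
theorem wz_even {g : Metric n M} (hn : Even n) (hn4 : 4 ≤ n) {a b : M → ℝ}
    (h : SecBetween g a b) (hab : ∀ x, 8 * b x < 33 * a x) {q : ℕ}
    (hq : q + 1 = 1 ∨ q + 1 = 3 ∨ q + 1 + 3 = n ∨ q + 1 + 1 = n) : WzPos g q :=
  wz_of (between_all' h) fun x _ hR h _ hφ h0 =>
    HopfPt.pt_even hn hn4 hR h (hab x) hq hφ h0

/-- `4 k ≤ p (n - p)`: degree `p`. -/
theorem wz_quad {g : Metric n M} {k q : ℕ} (hc : CurvKPos g k) (hq : q + 1 ≤ n)
    (hk : 4 * k ≤ (q + 1) * (n - (q + 1))) : WzPos g q :=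
  wz_of (kpos_all hc) fun _ _ hR h _ hφ h0 => HopfPt.pt_quad4 hk hq hR h hφ h0

/-- `n = 6`, the sectional curvatures are at least `a > 0`, those of orthogonal planes add up to at
most `2 b`, `4 b < 31 a`: all odd degrees. -/
theorem wz_S3o {M : Type u} [TopologicalSpace M] [ChartedSpace (E 6) M]
    [IsManifold 𝓘(ℝ, E 6) ∞ M] {g : Metric 6 M} {a b : M → ℝ} (ha : ∀ x, 0 < a x)
    (h : ∀ e ∈ atlas (E 6) M, ∀ y ∈ e.target, ∀ v w : Fin 6 → ℝ,
      a (e.symm y) * ((∑ i, ∑ j, gloc e g i j y * v i * v j) *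
          (∑ i, ∑ j, gloc e g i j y * w i * w j) - (∑ i, ∑ j, gloc e g i j y * v i * w j) ^ 2) ≤
        ∑ i, ∑ j, ∑ k, ∑ l, riem (gloc e g) i j k l y * v i * w j * v k * w l)
    (h' : ∀ e ∈ atlas (E 6) M, ∀ y ∈ e.target, ∀ v : Fin 4 → Fin 6 → ℝ,
      (∀ s t, ∑ i, ∑ j, gloc e g i j y * v s i * v t j = if s = t then 1 else 0) →
      (∑ i, ∑ j, ∑ k, ∑ l, riem (gloc e g) i j k l y * v 0 i * v 1 j * v 0 k * v 1 l) +
        (∑ i, ∑ j, ∑ k, ∑ l, riem (gloc e g) i j k l y * v 2 i * v 3 j * v 2 k * v 3 l) ≤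
          2 * b (e.symm y))
    (hab : ∀ x, 4 * b x < 31 * a x) {q : ℕ} (hq : q + 1 ≤ 6) (ho : Odd (q + 1)) :
    WzPos g q := by
  have h1 : AtAll g fun x R => HopfPt.SecGEA R (a x) :=
    fun e he y hy u hu => secge_frame hu (h e he y hy)
  have h2 : AtAll g fun x R => HopfPt.OrthA R (b x) :=
    fun e he y hy u hu => orth_frame hu (h' e he y hy)
  exact wz_of (h1.and h2) fun x R hR h _ hφ h0 =>
    HopfPt.pt_six hR (ha x) h.1 h.2 (hab x) ho hq hφ h0

end BH
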