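import Pool.Agent.Lib.MP_4a593f_gt.BH.Fin.Top
import Pool.Agent.Lib.MP_4a593f_gt.BH.Fin.Pnt

/-!
Fin/Main: the theorems on closed Riemannian manifolds.
-/

open scoped Manifold ContDiff Bundle Topology Matrix

noncomputable section

universe u

namespace BH

variable {n : ℕ} {M : Type u} [TopologicalSpace M] [ChartedSpace (E n) M]
  [IsManifold 𝓘(ℝ, E n) ∞ M] [CompactSpace M] [T2Space M] [Nonempty M]

/-- (S1), even dimensions -/
theorem mainS1 {g : Metric n M} {k : ℕ} (hc : CurvKPos g k) (hn : Even n)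
    (hk : 5 * k + 18 ≤ 6 * n) (hs : SecPos g ∨ k < n) :
    (∀ p, p ≤ n → Odd p → closedForms n M p ≤ exactForms n M p ∧ betti n M p = 0) ∧
      0 < euler n M :=
  top_odd (g := g) fun _ hq ho => wz_S1 hn hk hs hc hq ho

omit [Nonempty M] in
/-- (S1), all dimensions -/
theorem mainQ {g : Metric n M} {k : ℕ} (hc : CurvKPos g k) {p : ℕ} (hp : 0 < p) (hpn : p ≤ n)
    (hk : 4 * k ≤ p * (n - p)) : closedForms n M p ≤ exactForms n M p ∧ betti n M p = 0 :=
  deg_of_wz hp fun q hq => by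
    subst hq
    exact wz_quad hc hpn hk

/-- (S2) -/
theorem mainS2 (hn : 3 ≤ n) {g : Metric n M} (hc : CurvKPos g (n - 2)) :
    (∀ p, 0 < p → p < n → closedForms n M p ≤ exactForms n M p ∧ betti n M p = 0) ∧
      (Even n → 0 < euler n M) :=
  top_mid (g := g) fun _ hq => wz_S2 hn hc hq

/-- (S3) -/
theorem mainS3 {M : Type u} [TopologicalSpace M] [ChartedSpace (E 6) M]
    [IsManifold 𝓘(ℝ, E 6) ∞ M] [CompactSpace M] [T2Space M] [Nonempty M]
    {g : Metric 6 M} {a b : M → ℝ} (h : SecBetween g a b) (hab : ∀ x, 4 * b x < 31 * a x) :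
    (∀ p, p ≤ 6 → Odd p → closedForms 6 M p ≤ exactForms 6 M p ∧ betti 6 M p = 0) ∧
      0 < euler 6 M :=
  top_odd (g := g) fun _ hq ho => wz_S3 h hab hq ho

/-- (S4) -/
theorem mainS4 {M : Type u} [TopologicalSpace M] [ChartedSpace (E 8) M]
    [IsManifold 𝓘(ℝ, E 8) ∞ M] [CompactSpace M] [T2Space M] [Nonempty M]
    {g : Metric 8 M} {a b : M → ℝ} (h : SecBetween g a b) (hab : ∀ x, 391 * b x < 1891 * a x) :
    (∀ p, p ≤ 8 → Odd p → closedForms 8 M p ≤ exactForms 8 M p ∧ betti 8 M p = 0) ∧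
      0 < euler 8 M :=
  top_odd (g := g) fun _ hq ho => wz_S4 h hab hq ho

end BH
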