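import Pool.Agent.Lib.MP_4a593f_gt.BH.Fin.Main
import Pool.Agent.Lib.MP_4a593f_gt.BH.Fin.Br

/-!
Fin/Stm: the theorems of Fin/Main in the statement layer `BH/Stm.lean` (all definitions agree by
`rfl`, see Fin/Br).
-/

open scoped Manifold ContDiff

universe u

namespace BHS

section

variable {n : ℕ} {M : Type u} [TopologicalSpace M] [i1 : ChartedSpace (V n) M]
  [i2 : IsManifold (I n) ∞ M] [CompactSpace M] [T2Space M] [Nonempty M]

theorem mainS1 {g : Metric n M} {k : ℕ} (hc : CurvKPos g k) (hn : Even n)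
    (hk : 5 * k + 18 ≤ 6 * n) (hs : SecPos g ∨ k < n) :
    (∀ p, p ≤ n → Odd p → closedForms n M p ≤ exactForms n M p ∧ betti n M p = 0) ∧
      0 < euler n M :=
  @BH.mainS1 n M _ i1 i2 _ _ _ g k hc hn hk hs

omit [Nonempty M] in
theorem mainQ {g : Metric n M} {k : ℕ} (hc : CurvKPos g k) {p : ℕ} (hp : 0 < p) (hpn : p ≤ n)
    (hk : 4 * k ≤ p * (n - p)) : closedForms n M p ≤ exactForms n M p ∧ betti n M p = 0 :=
  @BH.mainQ n M _ i1 i2 _ _ g k hc p hp hpn hk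

theorem mainS2 (hn : 3 ≤ n) {g : Metric n M} (hc : CurvKPos g (n - 2)) :
    (∀ p, 0 < p → p < n → closedForms n M p ≤ exactForms n M p ∧ betti n M p = 0) ∧
      (Even n → 0 < euler n M) :=
  @BH.mainS2 n M _ i1 i2 _ _ _ hn g hc

end

theorem mainS3 {M : Type u} [TopologicalSpace M] [i1 : ChartedSpace (V 6) M]
    [i2 : IsManifold (I 6) ∞ M] [CompactSpace M] [T2Space M] [Nonempty M]
    {g : Metric 6 M} {a b : M → ℝ} (h : SecBetween g a b) (hab : ∀ x, 4 * b x < 31 * a x) :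
    (∀ p, p ≤ 6 → Odd p → closedForms 6 M p ≤ exactForms 6 M p ∧ betti 6 M p = 0) ∧
      0 < euler 6 M :=
  @BH.mainS3 M _ i1 i2 _ _ _ g a b h hab

theorem mainS4 {M : Type u} [TopologicalSpace M] [i1 : ChartedSpace (V 8) M]
    [i2 : IsManifold (I 8) ∞ M] [CompactSpace M] [T2Space M] [Nonempty M]
    {g : Metric 8 M} {a b : M → ℝ} (h : SecBetween g a b) (hab : ∀ x, 391 * b x < 1891 * a x) :
    (∀ p, p ≤ 8 → Odd p → closedForms 8 M p ≤ exactForms 8 M p ∧ betti 8 M p = 0) ∧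
      0 < euler 8 M :=
  @BH.mainS4 M _ i1 i2 _ _ _ g a b h hab

end BHS
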