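import Pool.Agent.Lib.MP_4a593f_gt.BH.Fin.Exact
import Pool.Agent.Lib.MP_4a593f_gt.BH.Fin.HypA

/-!
Fin/Top: from positivity of the curvature term in the necessary degrees to the Euler
characteristic.
-/

open scoped Manifold ContDiff Bundle Topology Matrix

noncomputable section

universe u

namespace BH

variable {n : ℕ} {M : Type u} [TopologicalSpace M] [ChartedSpace (E n) M]
  [IsManifold 𝓘(ℝ, E n) ∞ M] [CompactSpace M] [T2Space M]

/-- one degree -/
theorem deg_of_wz {g : Metric n M} {p : ℕ} (hp : 0 < p) (h : ∀ q, p = q + 1 → WzPos g q) :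
    closedForms n M p ≤ exactForms n M p ∧ betti n M p = 0 := by
  obtain ⟨q, rfl⟩ : ∃ q, p = q + 1 := ⟨p - 1, by omega⟩
  exact ⟨closed_le_of_wz g (h q rfl), betti_of_wz g (h q rfl)⟩

theorem top_odd [Nonempty M] {g : Metric n M}
    (h : ∀ q, q + 1 ≤ n → Odd (q + 1) → WzPos g q) :
    (∀ p, p ≤ n → Odd p → closedForms n M p ≤ exactForms n M p ∧ betti n M p = 0) ∧
      0 < euler n M := by
  have h1 : ∀ p, p ≤ n → Odd p → closedForms n M p ≤ exactForms n M p ∧ betti n M p = 0 :=
    fun p hp ho => deg_of_wz ho.pos fun q hq => h q (by omega) (by rwa [← hq])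
  exact ⟨h1, euler_pos_of_odd n M fun p hp ho => (h1 p hp ho).2⟩

theorem top_mid [Nonempty M] {g : Metric n M}
    (h : ∀ q, q + 1 < n → WzPos g q) :
    (∀ p, 0 < p → p < n → closedForms n M p ≤ exactForms n M p ∧ betti n M p = 0) ∧
      (Even n → 0 < euler n M) := by
  have h1 : ∀ p, 0 < p → p < n → closedForms n M p ≤ exactForms n M p ∧ betti n M p = 0 :=
    fun p h0 hp => deg_of_wz h0 fun q hq => h q (by omega)
  exact ⟨h1, fun hn => euler_pos_of_mid n M hn fun p h0 hp => (h1 p h0 hp).2⟩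

end BH
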